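import Mathlib
import Pool.Agent.H990R2.CutCyc

open Finset Filter Topology

namespace Pool.Agent.Results.MP_ee50b4_pr.NoCutoffOnCycles

noncomputable section

/-- `μ` is a probability measure on `ℤ/n`. -/
def IsProb {n : ℕ} [NeZero n] (μ : ZMod n → ℝ) : Prop :=
  (∀ x, 0 ≤ μ x) ∧ ∑ x, μ x = 1

/-- Ergodicity: the support of `μ` is not contained in a coset of a proper subgroup. -/
def Ergodic {n : ℕ} [NeZero n] (μ : ZMod n → ℝ) : Prop :=
  ∀ (H : AddSubgroup (ZMod n)) (a : ZMod n), (∀ x, μ x ≠ 0 → x - a ∈ H) → H = ⊤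

/-- The convolution power `μ^{*t}`. -/
def convPow {n : ℕ} [NeZero n] (μ : ZMod n → ℝ) : ℕ → ZMod n → ℝ
  | 0 => fun x => if x = 0 then 1 else 0
  | t + 1 => fun x => ∑ y, convPow μ t y * μ (x - y)

/-- Total variation distance `‖μ^{*t} - π‖_TV` to the uniform distribution. -/
def tvDist {n : ℕ} [NeZero n] (μ : ZMod n → ℝ) (t : ℕ) : ℝ :=
  (1 / 2 : ℝ) * ∑ x, |convPow μ t x - 1 / (n : ℝ)|

/-- The mixing time `T_mix(ε) = min {t : ‖μ^{*t} - π‖_TV ≤ ε}`. -/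
def Tmix {n : ℕ} [NeZero n] (μ : ZMod n → ℝ) (ε : ℝ) : ℕ :=
  sInf {t : ℕ | tvDist μ t ≤ ε}

/-- The eigenvalue `μ̂(j) = ∑_x μ(x) e^{2πi jx/n}`. -/
def hat {n : ℕ} [NeZero n] (μ : ZMod n → ℝ) (j : ZMod n) : ℂ :=
  ∑ x, (μ x : ℂ) * Complex.exp (2 * Real.pi * Complex.I * (j.val * x.val) / n)

/-- The spectral gap `γ = 1 - max_{j ≠ 0} |μ̂(j)|`. -/
def gap {n : ℕ} [NeZero n] (μ : ZMod n → ℝ) : ℝ :=
  1 - ⨆ j : {j : ZMod n // j ≠ 0}, ‖hat μ j.1‖

/-- The relaxation time `T_rel = 1/γ`. -/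
def Trel {n : ℕ} [NeZero n] (μ : ZMod n → ℝ) : ℝ := 1 / gap μ

/-- Total variation cutoff: `T_mix(ε)/T_mix(1-ε) → 1` for every fixed `ε ∈ (0,1/2)`. -/
def HasCutoff (n : ℕ → ℕ) [∀ k, NeZero (n k)] (μ : ∀ k, ZMod (n k) → ℝ) : Prop :=
  ∀ ε : ℝ, 0 < ε → ε < 1 / 2 →
    Tendsto (fun k => (Tmix (μ k) ε : ℝ) / (Tmix (μ k) (1 - ε) : ℝ)) atTop (𝓝 1)

theorem convPow_eq {n : ℕ} [NeZero n] (μ : ZMod n → ℝ) (t : ℕ) :
    convPow μ t = H990R2.CutCyc.law μ t := by
  induction t with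
  | zero => rfl
  | succ t ih => simp only [convPow, H990R2.CutCyc.law, ih]

/-- There are ergodic convolution walks on cycles `ℤ/n_k`, `n_k → ∞`, with
`T_rel/T_mix(1/2) → 0` but without total variation cutoff. -/
theorem result :
    ∃ (n : ℕ → ℕ) (_ : ∀ k, NeZero (n k)) (μ : ∀ k, ZMod (n k) → ℝ),
      Tendsto n atTop atTop ∧
      (∀ k, 2 ≤ n k) ∧
      (∀ k, IsProb (μ k)) ∧
      (∀ k, Ergodic (μ k)) ∧
      Tendsto (fun k => Trel (μ k) / (Tmix (μ k) (1 / 2) : ℝ)) atTop (𝓝 0) ∧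
      ¬ HasCutoff n μ := by
  choose N hN S hTN hS using fun n : ℕ => Helper394.exists_bad (n + 64) (by omega)
  have hd : ∀ k t, tvDist (H990R2.CutCyc.lazyMeas (S k)) t =
      (1 / 2 : ℝ) * ∑ x, |H990R2.CutCyc.law (H990R2.CutCyc.lazyMeas (S k)) t x -
        1 / (N k : ℝ)| := by
    intro k t
    rw [tvDist, convPow_eq]
  have h1 : ∀ n, ∀ t ≤ n + 64, 1 / 2 < tvDist (H990R2.CutCyc.lazyMeas (S n)) t := by
    intro n t ht
    have h := H990R2.CutCyc.tv_lower (hS n) t ht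
    rw [hd]
    linarith
  have h2 : ∀ n, tvDist (H990R2.CutCyc.lazyMeas (S n)) (2 * ((n + 64) / 8) + 1) ≤
      1 - 1 / 2000 := by
    intro n
    rw [hd]
    exact H990R2.CutCyc.tv_upper (hS n) _ (by omega)
  have h3 : ∀ n ε, 0 < ε → ∃ t, tvDist (H990R2.CutCyc.lazyMeas (S n)) t ≤ ε := by
    intro n ε hε
    obtain ⟨t, ht⟩ := H990R2.CutCyc.tv_conv (hS n) ε hε
    exact ⟨t, by rw [hd]; exact ht⟩
  have hgap : ∀ k, 1 / 8 ≤ gap (H990R2.CutCyc.lazyMeas (S k)) := by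
    intro k
    have : (⨆ j : {j : ZMod (N k) // j ≠ 0}, ‖hat (H990R2.CutCyc.lazyMeas (S k)) j.1‖) ≤
        7 / 8 := by
      apply Real.iSup_le _ (by norm_num)
      intro j
      have h := H990R2.CutCyc.hat_norm (hS k) j.2
      simp only [H990R2.CutCyc.chr_apply] at h
      exact h
    rw [gap]
    linarith
  refine ⟨N, hN, fun k => H990R2.CutCyc.lazyMeas (S k), ?_, ?_, ?_, ?_, ?_, ?_⟩
  · refine tendsto_atTop_mono (fun k => ?_) tendsto_id
    have := hTN k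
    simp only [id]
    omega
  · intro k
    have := hTN k
    omega
  · exact fun k => ⟨H990R2.CutCyc.lazyMeas_nonneg _, H990R2.CutCyc.lazyMeas_sum (hS k).nonempty⟩
  · intro k H a h
    have ha : a ∈ H := by
      have := h 0 (H990R2.CutCyc.lazyMeas_zero _).ne'
      simpa using this
    refine H990R2.CutCyc.top_of_sub (hS k) H fun s hs => ?_
    have := h s (H990R2.CutCyc.lazyMeas_ne hs)
    simpa using H.add_mem this ha
  · have h5 : Tendsto (fun k : ℕ => (8 : ℝ) / (k : ℝ)) atTop (𝓝 0) :=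
      tendsto_const_div_atTop_nhds_zero_nat 8
    refine tendsto_of_tendsto_of_tendsto_of_le_of_le' tendsto_const_nhds h5 ?_ ?_
    · refine Eventually.of_forall fun k => ?_
      have := hgap k
      have h6 : 0 ≤ Trel (H990R2.CutCyc.lazyMeas (S k)) := by
        rw [Trel]; exact div_nonneg zero_le_one (by linarith)
      exact div_nonneg h6 (Nat.cast_nonneg _)
    · filter_upwards [eventually_ge_atTop 1] with k hk
      have h6 := hgap k
      have h7 : Trel (H990R2.CutCyc.lazyMeas (S k)) ≤ 8 := by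
        rw [Trel, div_le_iff₀ (by linarith)]
        linarith
      have h8 : k + 64 + 1 ≤ Tmix (H990R2.CutCyc.lazyMeas (S k)) (1 / 2) :=
        Helper394.sInf_gt _ (k + 64) _ le_rfl (h1 k) (h3 k _ (by norm_num))
      have h9 : (k : ℝ) ≤ Tmix (H990R2.CutCyc.lazyMeas (S k)) (1 / 2) := by
        have : k ≤ Tmix (H990R2.CutCyc.lazyMeas (S k)) (1 / 2) := by omega
        exact_mod_cast this
      have hk' : (0 : ℝ) < k := by exact_mod_cast hk
      exact div_le_div₀ (by norm_num) h7 hk' h9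
  · intro hcut
    exact Helper394.no_cutoff_of (fun n => tvDist (H990R2.CutCyc.lazyMeas (S n))) h1 h2 h3
      (hcut (1 / 2000) (by norm_num) (by norm_num))

end

end Pool.Agent.Results.MP_ee50b4_pr.NoCutoffOnCycles
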